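import Pool.Agent.Helper41.SE.E7

/-!
Simplicial volume of right-angled reflection manifolds: from dimension `m` to dimension `m + 2`.

Let `L` be the flag complex of a finite graph `G` on `V` and `H` a subgroup of finite index of the
right-angled Coxeter group `W G` which consists of elements of even length (`H ≤ (par G).ker`). If all
links of `L` (including `L`) have the real homology of spheres of the right dimension (`Sph n G`), e.g.
if `L` is a flag triangulation of the `(n-1)`-sphere, and `H` is torsion-free then `M = Σ/H` (`Σ` the
Davis complex) is a closed oriented aspherical `n`-manifold (resp. homology manifold), and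
`svol G n a H` is its simplicial volume (`Pool.Agent.N13.QC.Defs2`), if `a` is the fundamental cycle of
`L`. For an arbitrary `(n-1)`-cycle `a` of an arbitrary flag complex `svol G n a H` is the
`ℓ¹`-seminorm of the real homology class of degree `n` of `H` which is defined by `a`.

Let `B` be a set of vertices of `L`. The full subcomplex `L_B` is the flag complex of
`GA G fun v => v ∈ B`. For example, if `L_B` is a sphere of dimension `n - 3` then its reflection
manifolds are totally geodesic submanifolds of codimension two of those of `L`.

The theorem: if `Sph (m + 2) G`, and `Z` is a space of `(m-1)`-cycles of `L_B` on which the simplicial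
volume is definite, and the dimension of `Z` is larger than the number of the squares (induced cycles
of length four) of `L` outside of `B` which have no common neighbour outside of `B`, then the simplicial
volume of `M` is positive.

Proof: let `z ∈ Z`. By Alexander duality `z` is homologous to the cap product of the fundamental cycle
of `L` and a 1-cocycle of the full subcomplex on the complement of `B`. For reasons of dimension we can
choose `z ≠ 0` such that this cocycle vanishes on all squares of the complement; by the results of
`Pool.Agent.Helper41.SV` it gives a bounded cocycle of degree two of the special subgroup of the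
complement. By the theorem of Hahn and Banach and the transfer the positive simplicial volume of `z`
gives a bounded cocycle of degree `m` of the special subgroup `W_B` which does not vanish at `z`. The
value of the product of the two bounded cocycles at the fundamental cycle is not zero.
-/

set_option autoImplicit false

open scoped Classical

namespace Pool.Agent.Results.MP_8a95ee_gt.CodimensionTwo

open Pool.Agent.W907.SG (W)
open Pool.Agent.TH652.Dual (Sph)
open Pool.Agent.Helper41.SV (GA)
open Pool.Agent.Helper41.SD (nsq)
open Pool.Agent.Q134.SV Pool.Agent.N13.QC

/-- Let `L₀` be the flag complex of `G₀`, with `Sph (m + 2) G₀`, `B` a set of vertices of `L₀` and `Z` a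
space of real `(m-1)`-cycles of the full subcomplex on `B`, such that each nonzero `z ∈ Z` has positive
simplicial volume, with respect to a subgroup of finite index of the special subgroup of `B`. Assume that
the dimension of `Z` is larger than the number of the squares in the complement of `B` without common
neighbours in the complement of `B`. Let `f : L → L₀` be a simplicial map (for example the identity of
`L₀`) and `a` a real `(m+1)`-cycle of `L` with `f_* a ≠ 0`. Then the simplicial volume is at least
`c [W G : H]` for all subgroups `H` of finite index which consist of elements of even length, with a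
constant `c > 0`. -/
theorem result (m : ℕ) (V V₀ : Type) [Fintype V] [Fintype V₀] [LinearOrder V₀] (G : SimpleGraph V)
    (G₀ : SimpleGraph V₀) (f : V → V₀) (hf : ∀ x y, G.Adj x y → f x = f y ∨ G₀.Adj (f x) (f y))
    (hS : Sph (m + 2) G₀) (B : Set V₀) (Z : Submodule ℝ ((Fin m → {v // v ∈ B}) → ℝ))
    (hZ : ∀ z ∈ Z, IsCyc m (GA G₀ fun v => v ∈ B) z)
    (hZ' : ∀ z ∈ Z, z ≠ 0 → ∃ K : Subgroup (W (GA G₀ fun v => v ∈ B)), K.index ≠ 0 ∧
      K ≤ (par (GA G₀ fun v => v ∈ B)).ker ∧ 0 < svol (GA G₀ fun v => v ∈ B) m z K)
    (h : nsq G₀ Bᶜ < Module.finrank ℝ Z)
    (a : (Fin (m + 2) → V) → ℝ) (ha : IsCyc (m + 2) G a) (h0 : push f a ≠ 0) :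
    ∃ c : ℝ, 0 < c ∧ ∀ H : Subgroup (W G), H.index ≠ 0 → H ≤ (par G).ker →
      c * H.index ≤ svol G (m + 2) a H :=
  Pool.Agent.Helper41.SE.main m G G₀ f hf hS a ha h0 B Z hZ hZ' h

end Pool.Agent.Results.MP_8a95ee_gt.CodimensionTwo
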