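import Pool.Agent.Helper41.SE.F9

/-!
Simplicial volume and Euler characteristic of right-angled reflection manifolds of all even dimensions:
if the simplicial volume vanishes then the Euler characteristic is bounded by the numbers of the
`ℓ¹`-null classes of the special subgroups.

Let `L` be the flag complex of a finite graph `G` on `V` and `H` a subgroup of finite index of the
right-angled Coxeter group `W G` which consists of elements of even length (`H ≤ (par G).ker`). Let
`Sph n G`: all links of `L` (including `L`) have the real homology of spheres of the right dimension,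
e.g. `L` is a flag triangulation of the `(n-1)`-sphere. If `H` is torsion-free then `M = Σ/H` (`Σ` the
Davis complex) is a closed oriented aspherical `n`-manifold (resp. homology manifold), `χ(M) = [W G : H]
χ(W G)`, `χ(W G) = chiW G = ∑_T (-1/2)^|T|` over all cliques, and `svol G n a H` is its simplicial
volume (`Pool.Agent.N13.QC.Defs2`), if `a` is the fundamental cycle of `L`. For an arbitrary
`(n-1)`-cycle `a` of an arbitrary flag complex `svol G n a H` is the `ℓ¹`-seminorm of the real homology
class of degree `n` of `H` which is defined by `a`.

Let `S` be a set of vertices of `L`. The full subcomplex `L_S` is the flag complex of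
`GA G fun v => v ∈ S`, its group is the special subgroup `W_S`. `rk G S p` is the largest dimension of
a space of real `(p-1)`-cycles of `L_S` whose nonzero elements have positive simplicial volume for some
subgroup of finite index of `W_S` of even elements, i.e. the rank of the `ℓ¹`-seminorm on the reduced
homology `H_(p-1)(L_S)`; `beta G (triv V) S ∅ p` is the dimension of this homology, `nul G S p` is the
difference (`Pool.Agent.Helper41.SE.rk_le_beta`), and `sqr G S` is the dimension of the span of the
closed walks of length four of `L_S`, i.e. of the squares (induced cycles of length four), in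
`H_1(L_S)`.

The theorem: if `‖M‖ = 0` then
* `rk G S p + rk G Sᶜ q ≤ b_(p-1)(L_S)` for all sets `S` of vertices and `p + q = n`;
* `(-1)^e 2^(|V|-1) χ(W G) ≤ ∑_S (∑_(p ≡ e) nul G S p - ∑_(p ≢ e) rk G S p)` for even `n` and all `e`,
  with the degrees `p ≤ n`, mod 2;
* `2^(|V|-1) χ(W G) ≤ ∑_S (sqr G S + ∑_(p even, p ≥ 4) nul G S p - ∑_(p odd) rk G S p)` for even `n`.

Proof: by the theorem of Hahn and Banach and the transfer the ranks are the dimensions of the spaces of
the classes of `H^p(W_S)` and `H^q(W_Sᶜ)` (coefficients in the orientation characters) which are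
represented by bounded cocycles. The retractions of `W G` to the special subgroups and the cup product
give bounded classes of degree `n`; if `‖M‖ = 0` they vanish at the fundamental cycle. The cup product
`H^(p-1)(L_S) ⊗ H^(q-1)(L_Sᶜ) → H^(n-1)(L)` is a perfect pairing by Alexander duality, so the sum of
the two ranks is at most `b_(p-1)(L_S)`. The sum over all `S` and over the degrees of one parity gives
the inequalities for the Euler characteristic, since `2^|V| χ(W G)` is the alternating sum of the Betti
numbers of all full subcomplexes. A class of degree two which is given by a 1-cocycle of `L_S` is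
bounded if the cocycle vanishes on the squares (`Pool.Agent.Helper41.SV`), so `nul G S 2 ≤ sqr G S`
(`Pool.Agent.Helper41.SE.nul_two`).
-/

set_option autoImplicit false

open scoped Classical

namespace Pool.Agent.Results.MP_8a95ee_gt.EulerAndNullClasses

open Pool.Agent.W907.SG (W chiW beta)
open Pool.Agent.TH652.Dual (Sph triv)
open Pool.Agent.Helper41.SE (rk nul sqr degs evs)
open Pool.Agent.Q134.SV Pool.Agent.N13.QC

/-- Let `L₀` be the flag complex of `G₀`, with `Sph n G₀`. Assume one of the following:
* there are `p + q = n` and a set `S` of vertices such that the sum of the rank of the simplicial volume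
  in degree `p` of the special subgroup of `S` and of the rank in degree `q` of the special subgroup of
  the complement is larger than the Betti number `b_(p-1)` of the full subcomplex on `S`;
* `n` is even and there is `e` such that twice the sum of the numbers `nul G₀ S p` over all `S` and all
  `p ≤ n` with `p ≡ e mod 2` is less than `(-1)^e 2^|V₀| χ(W G₀)` plus twice the sum of the ranks
  `rk G₀ S p` over all `S` and all `p ≤ n` of the other parity;
* `n` is even and twice the sum over all `S` of `sqr G₀ S` and of the numbers `nul G₀ S p`, `p` even,
  `4 ≤ p ≤ n`, is less than `2^|V₀| χ(W G₀)` plus twice the sum of the ranks `rk G₀ S p` over all `S`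
  and all odd `p ≤ n`.
Let `f : L → L₀` be a simplicial map (for example the identity of `L₀`) and `a` a real `(n-1)`-cycle of
`L` with `f_* a ≠ 0`. Then the simplicial volume is at least `c [W G : H]` for all subgroups `H` of
finite index which consist of elements of even length, with a constant `c > 0`. -/
theorem result (n : ℕ) (V V₀ : Type) [Fintype V] [Fintype V₀] [LinearOrder V₀] (G : SimpleGraph V)
    (G₀ : SimpleGraph V₀) (f : V → V₀) (hf : ∀ x y, G.Adj x y → f x = f y ∨ G₀.Adj (f x) (f y))
    (hS : Sph n G₀)
    (h : (∃ (p q : ℕ) (S : Set V₀), p + q = n ∧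
        beta G₀ (triv V₀) S ∅ p < rk G₀ S p + rk G₀ Sᶜ q) ∨
      (Even n ∧ ∃ e : ℕ,
        2 * ((∑ S : Finset V₀, ∑ p ∈ degs n e, nul G₀ (S : Set V₀) p : ℕ) : ℚ) <
          (-1 : ℚ) ^ e * (2 ^ Fintype.card V₀ * chiW G₀) +
            2 * ((∑ S : Finset V₀, ∑ p ∈ degs n (e + 1), rk G₀ (S : Set V₀) p : ℕ) : ℚ)) ∨
      (Even n ∧
        2 * ((∑ S : Finset V₀,
            (sqr G₀ (S : Set V₀) + ∑ p ∈ evs n, nul G₀ (S : Set V₀) p) : ℕ) : ℚ) <
          2 ^ Fintype.card V₀ * chiW G₀ +
            2 * ((∑ S : Finset V₀, ∑ p ∈ degs n 1, rk G₀ (S : Set V₀) p : ℕ) : ℚ)))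
    (a : (Fin n → V) → ℝ) (ha : IsCyc n G a) (h0 : push f a ≠ 0) :
    ∃ c : ℝ, 0 < c ∧ ∀ H : Subgroup (W G), H.index ≠ 0 → H ≤ (par G).ker →
      c * H.index ≤ svol G n a H :=
  Pool.Agent.Helper41.SE.main3 n G f hf hS a ha h0 h

end Pool.Agent.Results.MP_8a95ee_gt.EulerAndNullClasses
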