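import Pool.Agent.Helper41.SD.D8

/-!
Simplicial volume and Euler characteristic of four-dimensional right-angled reflection manifolds: an
inequality between the Euler characteristic and the number of squares of the nerve.

Let `L` be the flag complex of a finite graph `G` on `V` and `H` a subgroup of finite index of the
right-angled Coxeter group `W G` which consists of elements of even length (`H ≤ (par G).ker`). Let
`Sph 4 G`: all links of `L` (including `L`) have the real homology of spheres of the right dimension,
e.g. `L` is a flag triangulation of the 3-sphere. If `H` is torsion-free then `M = Σ/H` (`Σ` the Davis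
complex) is a closed oriented aspherical 4-manifold (resp. homology manifold), `χ(M) = [W G : H]
χ(W G)`, `χ(W G) = chiW G = ∑_T (-1/2)^|T|` over all cliques, and `svol G 4 a H` is its simplicial
volume (`Pool.Agent.N13.QC.Defs2`), if `a` is the fundamental cycle of `L`.

A square is a set `Q` of four vertices which span an induced cycle of length four. `wsq G` is the sum
over all squares of `2^(-c)` where `c` is the number of the vertices adjacent to all vertices of the
square. The theorem: `‖M‖ = 0` implies `8 χ(W G) ≤ wsq G`, i.e. `χ(M) ≤ [W G : H] wsq G / 8`. More
generally `‖M‖ = 0` implies that the first Betti number of every full subcomplex `L_A` is at most the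
sum of the numbers of the squares in `L_A` and in `L_B`, `B` the complement of `A`, where only the
squares without common neighbours in `A` resp. `B` are counted.

Proof: by the results of `Pool.Agent.Helper41.SV` the class of degree two which is given by a 1-cocycle
`φ` of `L_B` is bounded if `φ` vanishes on the squares; so if `‖M‖ = 0` then the products of two
such classes are zero, i.e. the Alexander dual of `φ` in `H_1(L_A)` is in the span of the squares of
`L_A`. Alexander duality `H^1(L_B) = H_1(L_A)` (`Pool.Agent.Helper41.SD.alexander`) gives the estimate
of the Betti number. The sum over all `A` gives the inequality for the Euler characteristic, since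
`2^|V| χ(W G)` is the alternating sum of the Betti numbers of all full subcomplexes.
-/

set_option autoImplicit false

open scoped Classical

namespace Pool.Agent.Results.MP_8a95ee_gt.ReflectionFourManifolds

open Pool.Agent.W907.SG (W chiW beta)
open Pool.Agent.TH652.Dual (Sph triv)
open Pool.Agent.Q134.SV Pool.Agent.N13.QC Pool.Agent.Helper41.SD

/-- Let `L₀` be the flag complex of `G₀`, with `Sph 4 G₀`, and assume that `8 χ(W G₀)` is larger than
the weighted number of the squares of `L₀`, or, more generally, that there is a set `A` of vertices
such that the first Betti number of the full subcomplex on `A` is larger than the sum of the numbers of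
the squares in `A` without common neighbours in `A` and of the squares in the complement without common
neighbours in the complement. Let `f : L → L₀` be a simplicial map (for example the identity of `L₀`)
and `a` a real 3-cycle of `L` with `f_* a ≠ 0`. Then the simplicial volume is at least `c [W G : H]`
for all subgroups `H` of finite index which consist of elements of even length, with a constant
`c > 0`. -/
theorem result (V V₀ : Type) [Fintype V] [Fintype V₀] [LinearOrder V₀] (G : SimpleGraph V)
    (G₀ : SimpleGraph V₀) (f : V → V₀) (hf : ∀ x y, G.Adj x y → f x = f y ∨ G₀.Adj (f x) (f y))
    (hS : Sph 4 G₀)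
    (h : wsq G₀ < 8 * chiW G₀ ∨ ∃ A : Set V₀, nsq G₀ A + nsq G₀ Aᶜ < beta G₀ (triv V₀) A ∅ 2)
    (a : (Fin 4 → V) → ℝ) (ha : IsCyc 4 G a) (h0 : push f a ≠ 0) :
    ∃ c : ℝ, 0 < c ∧ ∀ H : Subgroup (W G), H.index ≠ 0 → H ≤ (par G).ker →
      c * H.index ≤ svol G 4 a H := by
  by_contra hc
  have hb := betti hS (ha.push f hf) h0 fun B φ hφ => by
    by_contra hn
    exact hc (Pool.Agent.Helper41.SV.exists_c G G₀ f hf B φ hφ a ha hn)
  rcases h with h | ⟨A, hA⟩
  · exact absurd h (not_lt.2 (chi_le hS (ha.push f hf) h0 hb))
  · exact absurd hA (not_lt.2 (hb A))

end Pool.Agent.Results.MP_8a95ee_gt.ReflectionFourManifolds
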