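import Pool.Agent.Helper41.SV.Dim4

/-!
Simplicial volume of right-angled reflection manifolds and cohomology classes of full subcomplexes
which vanish on the cycles of length four.

Let `L` be the flag complex of a finite graph `G` on `V` and `H` a subgroup of finite index of the
right-angled Coxeter group `W G` which consists of elements of even length (`H ≤ (par G).ker`). If `L`
is a combinatorial sphere of dimension `n - 1` with fundamental cycle `a` and `H` is torsion-free then
`M = Σ/H` (`Σ` the Davis complex) is a closed oriented aspherical `n`-manifold and `svol G n a H` is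
its simplicial volume (`Pool.Agent.N13.QC.Defs2`).

Let `A` be a set of vertices and `φ` a real 1-cocycle of the full subcomplex `L_A` whose sum around
every cycle of length four is zero. Then the corresponding class of degree two of the special subgroup
`W_A` (with coefficients twisted by the parity) is bounded. The value of the bounded cocycle at
`(g₀, g₁, g₂)` is a sum over all vertices `v` of the Davis complex of
`ε(v) (P(λ₀, λ₁) + P(λ₁, λ₂) + P(λ₂, λ₀))`, where `λ_j` is the label of the first wall (in a linear
order of `A`) among the walls at `v` which separate `v` from `g_j`, and `P(a, b)` is the value of `φ`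
at a path of length at most two from `a` to `b`: this is well-defined because `φ` vanishes on squares,
and `P(a, b) = P(a, z) + P(z, b)` if `z` is equal or adjacent to `a` and to `b`. At most
`8 (|V| + 1)^3` of the local terms are not zero: the vertex `v` is determined by data of the median
graph of the group of the type (pairs of labels, bits).

The retractions `W_L → W_{A_i}` for a partition of `V` into `k` classes give bounded cocycles of degree
`2 k` with explicit bounds.
-/

set_option autoImplicit false

open scoped Classical

namespace Pool.Agent.Results.MP_8a95ee_gt.SquareFreeProducts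

open Pool.Agent.W907.SG (W)
open Pool.Agent.Q134.SV Pool.Agent.N13.QC Pool.Agent.Helper41.SV

/-- (1) Let `a` be a real `(2 k - 1)`-cycle of the flag complex of `G`, whose vertices are partitioned
into `k` classes, and let `φ` be an antisymmetric function of two vertices which is additive on the
triangles in one class and whose sum around closed walks of length four in one class is zero, with
`|φ| ≤ 1` at the edges in one class. Then the simplicial volume is bounded from below by the value of
the product of the `k` classes at the cycle.

(2) Let `k = 2`. If the simplicial volume is zero then, for every induced cycle `Z = (z_0, z_1, …)` of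
length at least five, the link of the edge `z_0 z_1` (as a 1-cycle) is in `L - Z` homologous to a real
combination of closed walks of length four. -/
theorem result :
    (∀ (k : ℕ) (V : Type) [Fintype V] (G : SimpleGraph V) (cl : V → Fin k) (φ : V → V → ℝ),
      (∀ x y, φ x y = - φ y x) →
      (∀ x y z, cl x = cl y → cl y = cl z → G.Adj x y → G.Adj y z → G.Adj x z →
        φ x y + φ y z = φ x z) →
      (∀ x y z w, cl x = cl y → cl y = cl z → cl z = cl w → G.Adj x y → G.Adj y z → G.Adj z w →
        G.Adj w x → φ x y + φ y z + φ z w + φ w x = 0) →
      (∀ x y, cl x = cl y → G.Adj x y → |φ x y| ≤ 1) →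
      ∀ a : (Fin (2 * k) → V) → ℝ, IsCyc (2 * k) G a →
      ∀ H : Subgroup (W G), H.index ≠ 0 → H ≤ (par G).ker →
      (H.index : ℝ) * |∑ v : Fin (2 * k) → V, a v * ∏ i : Fin k,
        (if cl (v ⟨2 * i, by omega⟩) = i ∧ cl (v ⟨2 * i + 1, by omega⟩) = i then
          φ (v ⟨2 * i, by omega⟩) (v ⟨2 * i + 1, by omega⟩) else 0)| ≤
        (96 * ((Fintype.card V : ℝ) + 1) ^ 3) ^ k * svol G (2 * k) a H) ∧
    (∀ (V : Type) [Fintype V] (G : SimpleGraph V) (a : (Fin 4 → V) → ℝ), IsCyc 4 G a →
      ∀ (m : ℕ), 5 ≤ m → ∀ z : ZMod m → V, Function.Injective z →
      (∀ i j, G.Adj (z i) (z j) ↔ j = i + 1 ∨ i = j + 1) →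
      ∀ H : Subgroup (W G), H.index ≠ 0 → H ≤ (par G).ker → svol G 4 a H = 0 →
      (fun s t => a ![z 0, z 1, s, t]) ∈ SqSpan G fun v => v ∉ Set.range z) := by
  refine ⟨?_, ?_⟩
  · intro k V _ G cl φ hanti htri hsq hB a ha H hi hε
    have h := main k V G cl (fun _ => φ) (fun _ => 1) (fun i => ⟨fun x y => hanti _ _,
      fun x y z h1 h2 h3 => htri _ _ _ (x.2.trans y.2.symm) (y.2.trans z.2.symm) h1 h2 h3,
      fun x y z w h1 h2 h3 h4 => ?_⟩) (fun _ => zero_le_one)
      (fun i x y h1 h2 h3 => hB x y (h1.trans h2.symm) h3) a ha H hi hε
    · simpa using h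
    · change φ x.1 z.1 + φ z.1 y.1 = φ x.1 w.1 + φ w.1 y.1
      have h5 := hsq x.1 z.1 y.1 w.1 (x.2.trans z.2.symm) (z.2.trans y.2.symm)
        (y.2.trans w.2.symm) h1 h2 h4.symm h3.symm
      rw [hanti y.1 w.1, hanti w.1 x.1] at h5
      linarith
  · intro V _ G a ha m hm z hz hadj H hi hε hs
    exact link_mem G a ha hm z hz hadj H hi hε hs

end Pool.Agent.Results.MP_8a95ee_gt.SquareFreeProducts
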